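import Pool.Agent.Helper47.SR.Goals

/-!
MP_0130f7_co, packet SR-E12: total weight of a level.
-/

namespace Pool.Agent.Helper47.SR

open Finset

namespace E12aux

theorem mv_one {n : ℕ} (A : Finset (Fin n)) : mv (1 : Equiv.Perm (Fin n)) A = A := by
  ext x
  simp only [mv, Finset.mem_map_equiv]
  exact Iff.rfl

theorem mv_mul {n : ℕ} (γ δ : Equiv.Perm (Fin n)) (A : Finset (Fin n)) :
    mv (γ * δ) A = mv γ (mv δ A) := by
  ext x
  simp only [mv, Finset.mem_map_equiv]
  exact Iff.rfl

/-- the stabiliser of a set -/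
def stab {n : ℕ} (A : Finset (Fin n)) : Subgroup (Equiv.Perm (Fin n)) where
  carrier := {γ | mv γ A = A}
  one_mem' := mv_one A
  mul_mem' := by
    intro a b ha hb
    show mv (a * b) A = A
    rw [mv_mul, show mv b A = A from hb, show mv a A = A from ha]
  inv_mem' := by
    intro a ha
    show mv a⁻¹ A = A
    have ha' : mv a A = A := ha
    calc mv a⁻¹ A = mv a⁻¹ (mv a A) := by rw [ha']
      _ = A := by rw [← mv_mul, inv_mul_cancel, mv_one]

open Classical in
theorem card_le {n : ℕ} (G : Grp n) (hG : Semireg G) :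
    #((univ : Finset (Equiv.Perm (Fin n))).filter (fun γ => γ ∈ G ∧ γ ≠ 1)) ≤ n := by
  rcases Nat.eq_zero_or_pos n with h | h
  · subst h
    have : (univ : Finset (Equiv.Perm (Fin 0))).filter (fun γ => γ ∈ G ∧ γ ≠ 1) = ∅ := by
      rw [Finset.filter_eq_empty_iff]
      intro γ _ hγ
      exact hγ.2 (Subsingleton.elim _ _)
    rw [this, Finset.card_empty]
  · have h1 : #((univ : Finset (Equiv.Perm (Fin n))).filter (fun γ => γ ∈ G ∧ γ ≠ 1))
        ≤ #(univ : Finset (Fin n)) := by
      apply Finset.card_le_card_of_injOn (fun γ => γ ⟨0, h⟩)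
      · intro γ _
        exact Finset.mem_coe.mpr (Finset.mem_univ _)
      · intro γ hγ δ hδ e
        have hγ' : γ ∈ G := (Finset.mem_filter.mp (Finset.mem_coe.mp hγ)).2.1
        have hδ' : δ ∈ G := (Finset.mem_filter.mp (Finset.mem_coe.mp hδ)).2.1
        by_contra hne
        have e' : γ ⟨0, h⟩ = δ ⟨0, h⟩ := e
        apply hG (δ⁻¹ * γ) (G.mul_mem (G.inv_mem hδ') hγ') _ ⟨0, h⟩
        · rw [Equiv.Perm.mul_apply, e']
          exact δ.symm_apply_apply _
        · intro h1
          apply hne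
          have : δ * (δ⁻¹ * γ) = δ * 1 := by rw [h1]
          rwa [mul_inv_cancel_left, mul_one] at this
    rwa [Finset.card_univ, Fintype.card_fin] at h1

open Classical in
theorem wt_eq {n : ℕ} (G : Grp n) (A : Finset (Fin n)) :
    wt G A = ∑ γ ∈ (univ : Finset (Equiv.Perm (Fin n))).filter (fun γ => γ ∈ G ∧ γ ≠ 1),
      if mv γ A = A then 1 else 0 := by
  rw [← Finset.card_filter, Finset.filter_filter]
  unfold wt
  congr 1
  ext γ
  simp only [Finset.mem_filter, Finset.mem_univ, true_and, and_assoc]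

open Classical in
theorem Ew_le {n : ℕ} (G : Grp n) (hG : Semireg G) (F : Finset (Finset (Fin n))) (M : ℕ)
    (hM : ∀ γ ∈ G, γ ≠ 1 → #(F.filter (fun A => mv γ A = A)) ≤ M) : Ew G F ≤ n * M := by
  unfold Ew
  rw [Finset.sum_congr rfl fun A _ => wt_eq G A, Finset.sum_comm]
  calc ∑ γ ∈ (univ : Finset (Equiv.Perm (Fin n))).filter (fun γ => γ ∈ G ∧ γ ≠ 1),
        ∑ A ∈ F, (if mv γ A = A then 1 else 0)
      ≤ ∑ γ ∈ (univ : Finset (Equiv.Perm (Fin n))).filter (fun γ => γ ∈ G ∧ γ ≠ 1), M := by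
        refine Finset.sum_le_sum fun γ hγ => ?_
        rw [← Finset.card_filter]
        exact hM γ (Finset.mem_filter.mp hγ).2.1 (Finset.mem_filter.mp hγ).2.2
    _ = #((univ : Finset (Equiv.Perm (Fin n))).filter (fun γ => γ ∈ G ∧ γ ≠ 1)) * M := by
        rw [Finset.sum_const, smul_eq_mul]
    _ ≤ n * M := Nat.mul_le_mul_right _ (card_le G hG)

theorem choose_mono_half (N : ℕ) : ∀ b a : ℕ, a ≤ b → b ≤ N / 2 → N.choose a ≤ N.choose b := by
  intro b
  induction b with
  | zero =>
    intro a ha _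
    rw [Nat.le_zero.mp ha]
  | succ b ih =>
    intro a ha hb
    rcases Nat.lt_or_ge a (b + 1) with h | h
    · exact (ih a (Nat.lt_succ_iff.mp h) (by omega)).trans
        (Nat.choose_le_succ_of_lt_half_left (by omega))
    · rw [le_antisymm ha h]

theorem card_zpowers_ge {n : ℕ} (γ : Equiv.Perm (Fin n)) (hγ : γ ≠ 1) :
    2 ≤ Nat.card (Subgroup.zpowers γ) := by
  rw [Nat.card_zpowers]
  have h1 : orderOf γ ≠ 1 := fun h => hγ (orderOf_eq_one_iff.mp h)
  have h2 : 0 < orderOf γ := orderOf_pos γ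
  omega

end E12aux

open E12aux in
theorem goal_E12 (hINVC : Goal_INVC) : Goal_E12 := by
  classical
  intro n G hG j
  have hsub : ∀ γ ∈ G, ∀ F : Finset (Finset (Fin n)), #(F.filter (fun A => mv γ A = A))
      ≤ #(F.filter (fun A => ∀ δ ∈ Subgroup.zpowers γ, mv δ A = A)) := by
    intro γ _ F
    apply Finset.card_le_card
    intro A hA
    rw [Finset.mem_filter] at hA ⊢
    refine ⟨hA.1, fun δ hδ => ?_⟩
    have h1 : Subgroup.zpowers γ ≤ stab A := by
      rw [Subgroup.zpowers_le]
      exact hA.2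
    exact h1 hδ
  have hsr : ∀ γ ∈ G, Semireg (Subgroup.zpowers γ) := by
    intro γ hγ δ hδ hδ1 x
    have h1 : Subgroup.zpowers γ ≤ G := by
      rw [Subgroup.zpowers_le]
      exact hγ
    exact hG δ (h1 hδ) hδ1 x
  constructor
  · intro hj
    apply Ew_le G hG
    intro γ hγ hγ1
    refine (hsub γ hγ _).trans ?_
    refine ((hINVC n (Subgroup.zpowers γ) (hsr γ hγ)).1 j).trans ?_
    have ho := card_zpowers_ge γ hγ1
    have h1 : n / Nat.card (Subgroup.zpowers γ) ≤ n / 2 := Nat.div_le_div_left ho (by norm_num)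
    have h2 : j / Nat.card (Subgroup.zpowers γ) ≤ j / 2 := Nat.div_le_div_left ho (by norm_num)
    exact (Nat.choose_le_choose _ h1).trans (choose_mono_half _ _ _ h2 (by omega))
  · apply Ew_le G hG
    intro γ hγ hγ1
    refine (hsub γ hγ _).trans ?_
    have ho := card_zpowers_ge γ hγ1
    have h1 : n / Nat.card (Subgroup.zpowers γ) ≤ n / 2 := Nat.div_le_div_left ho (by norm_num)
    have h2 := (hINVC n (Subgroup.zpowers γ) (hsr γ hγ)).2
    have h3 : #((lev n j).filter (fun A => ∀ δ ∈ Subgroup.zpowers γ, mv δ A = A))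
        ≤ #((univ : Finset (Finset (Fin n))).filter
          (fun A => ∀ δ ∈ Subgroup.zpowers γ, mv δ A = A)) := by
      apply Finset.card_le_card
      exact Finset.filter_subset_filter _ (Finset.subset_univ _)
    exact h3.trans (h2.trans (Nat.pow_le_pow_right (by norm_num) h1))

end Pool.Agent.Helper47.SR
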