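import Pool.Agent.Helper47.SR.Goals

/-!
MP_0130f7_co, packet SR-LA: linear algebra on invariants.
-/

namespace Pool.Agent.Helper47.SR

open Finset

namespace LAaux

theorem mv_one {n : ℕ} (A : Finset (Fin n)) : mv (1 : Equiv.Perm (Fin n)) A = A := by
  ext x
  simp only [mv, Finset.mem_map_equiv]
  exact Iff.rfl

theorem mv_mul {n : ℕ} (γ δ : Equiv.Perm (Fin n)) (A : Finset (Fin n)) :
    mv (γ * δ) A = mv γ (mv δ A) := by
  ext x
  simp only [mv, Finset.mem_map_equiv]
  exact Iff.rfl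

theorem mem_orb {n : ℕ} (G : Grp n) (A B : Finset (Fin n)) :
    B ∈ orb G A ↔ ∃ γ ∈ G, mv γ A = B := by
  classical
  unfold orb
  simp

theorem self_mem {n : ℕ} (G : Grp n) (A : Finset (Fin n)) : A ∈ orb G A :=
  (mem_orb G A A).mpr ⟨1, G.one_mem, mv_one A⟩

theorem orb_mv {n : ℕ} (G : Grp n) (γ : Equiv.Perm (Fin n)) (hγ : γ ∈ G) (A : Finset (Fin n)) :
    orb G (mv γ A) = orb G A := by
  ext B
  rw [mem_orb, mem_orb]
  constructor
  · rintro ⟨δ, hδ, h⟩
    exact ⟨δ * γ, G.mul_mem hδ hγ, by rw [mv_mul, h]⟩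
  · rintro ⟨δ, hδ, h⟩
    refine ⟨δ * γ⁻¹, G.mul_mem hδ (G.inv_mem hγ), ?_⟩
    rw [← mv_mul, inv_mul_cancel_right, h]

theorem mem_of_orb {n : ℕ} (G : Grp n) (F : Finset (Finset (Fin n))) (hF : IsInv G F)
    (A : Finset (Fin n)) (h : orb G A ∈ F.image (orb G)) : A ∈ F := by
  obtain ⟨A', hA', e⟩ := Finset.mem_image.mp h
  have h1 : A ∈ orb G A' := by
    rw [e]
    exact self_mem G A
  obtain ⟨γ, hγ, rfl⟩ := (mem_orb G A' A).mp h1
  exact hF γ hγ A' hA'

theorem mv_mem_iff {n : ℕ} (G : Grp n) (F : Finset (Finset (Fin n))) (hF : IsInv G F)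
    (γ : Equiv.Perm (Fin n)) (hγ : γ ∈ G) (A : Finset (Fin n)) : mv γ A ∈ F ↔ A ∈ F := by
  constructor
  · intro h
    have := hF γ⁻¹ (G.inv_mem hγ) _ h
    rwa [← mv_mul, inv_mul_cancel, mv_one] at this
  · exact hF γ hγ A

open Classical in
/-- extension of a function on the orbits -/
noncomputable def ext {n : ℕ} (G : Grp n) (S : Finset (Finset (Fin n)))
    (g : {O // O ∈ S.image (orb G)} → ℝ) (A : Finset (Fin n)) : ℝ :=
  if h : orb G A ∈ S.image (orb G) then g ⟨orb G A, h⟩ else 0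

theorem ext_inv {n : ℕ} (G : Grp n) (S : Finset (Finset (Fin n)))
    (g : {O // O ∈ S.image (orb G)} → ℝ) (γ : Equiv.Perm (Fin n)) (hγ : γ ∈ G)
    (A : Finset (Fin n)) : ext G S g (mv γ A) = ext G S g A := by
  unfold ext
  simp only [orb_mv G γ hγ A]

theorem ext_supp {n : ℕ} (G : Grp n) (S : Finset (Finset (Fin n))) (hS : IsInv G S)
    (g : {O // O ∈ S.image (orb G)} → ℝ) (A : Finset (Fin n)) (hA : A ∉ S) :
    ext G S g A = 0 := by
  unfold ext
  rw [dif_neg]
  exact fun h => hA (mem_of_orb G S hS A h)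

theorem sum_inv {n : ℕ} (G : Grp n) (S : Finset (Finset (Fin n))) (hS : IsInv G S)
    (K : Finset (Fin n) → Finset (Fin n) → ℝ) (hK : ∀ γ ∈ G, ∀ A B, K (mv γ B) (mv γ A) = K B A)
    (f : Finset (Fin n) → ℝ) (hf : ∀ γ ∈ G, ∀ A, f (mv γ A) = f A)
    (γ : Equiv.Perm (Fin n)) (hγ : γ ∈ G) (B : Finset (Fin n)) :
    ∑ A ∈ S, K (mv γ B) A * f A = ∑ A ∈ S, K B A * f A := by
  symm
  refine Finset.sum_bij' (fun A _ => mv γ A) (fun A _ => mv γ⁻¹ A) ?_ ?_ ?_ ?_ ?_
  · intro A hA
    exact hS γ hγ A hA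
  · intro A hA
    exact hS γ⁻¹ (G.inv_mem hγ) A hA
  · intro A _
    show mv γ⁻¹ (mv γ A) = A
    rw [← mv_mul, inv_mul_cancel, mv_one]
  · intro A _
    show mv γ (mv γ⁻¹ A) = A
    rw [← mv_mul, mul_inv_cancel, mv_one]
  · intro A _
    show K B A * f A = K (mv γ B) (mv γ A) * f (mv γ A)
    rw [hK γ hγ, hf γ hγ]

end LAaux

open LAaux in
theorem goal_LA (hORB : Goal_ORB) : Goal_LA := by
  classical
  intro n G S T K hS hT hK hinj
  rw [hORB n G S hS, hORB n G T hT]
  apply Nat.mul_le_mul_left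
  have hrep : ∀ O : {O // O ∈ T.image (orb G)}, ∃ B ∈ T, orb G B = O.1 := fun O =>
    Finset.mem_image.mp O.2
  choose rep hrepT hrepO using hrep
  let Φ : ({O // O ∈ S.image (orb G)} → ℝ) →ₗ[ℝ] ({O // O ∈ T.image (orb G)} → ℝ) :=
    { toFun := fun g O => ∑ A ∈ S, K (rep O) A * LAaux.ext G S g A
      map_add' := by
        intro g h
        funext O
        show ∑ A ∈ S, K (rep O) A * LAaux.ext G S (g + h) A = _ + _
        rw [← Finset.sum_add_distrib]
        refine Finset.sum_congr rfl fun A hA => ?_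
        have : LAaux.ext G S (g + h) A = LAaux.ext G S g A + LAaux.ext G S h A := by
          unfold LAaux.ext
          split_ifs
          · rfl
          · simp
        rw [this]
        ring
      map_smul' := by
        intro c g
        funext O
        show ∑ A ∈ S, K (rep O) A * LAaux.ext G S (c • g) A = c * ∑ A ∈ S, _
        rw [Finset.mul_sum]
        refine Finset.sum_congr rfl fun A hA => ?_
        have : LAaux.ext G S (c • g) A = c * LAaux.ext G S g A := by
          unfold LAaux.ext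
          split_ifs
          · rfl
          · simp
        rw [this]
        ring }
  have hΦ : Function.Injective Φ := by
    rw [injective_iff_map_eq_zero]
    intro g hg
    have h0 : ∀ A, LAaux.ext G S g A = 0 := by
      apply hinj
      · exact fun γ hγ A => ext_inv G S g γ hγ A
      · exact fun A hA => ext_supp G S hS g A hA
      · intro B hB
        have hO : orb G B ∈ T.image (orb G) := Finset.mem_image_of_mem _ hB
        have h1 : B ∈ orb G (rep ⟨orb G B, hO⟩) := by
          rw [hrepO]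
          exact self_mem G B
        obtain ⟨γ, hγ, e⟩ := (mem_orb G _ B).mp h1
        have h2 := congrFun hg ⟨orb G B, hO⟩
        have h3 := sum_inv G S hS K hK (LAaux.ext G S g)
          (fun γ hγ A => ext_inv G S g γ hγ A) γ hγ (rep ⟨orb G B, hO⟩)
        rw [e] at h3
        rw [h3]
        exact h2
    funext O
    obtain ⟨A, hA, e⟩ := Finset.mem_image.mp O.2
    have h1 := h0 A
    have hm : orb G A ∈ S.image (orb G) := Finset.mem_image_of_mem _ hA
    unfold LAaux.ext at h1
    rw [dif_pos hm] at h1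
    have h2 : O = ⟨orb G A, hm⟩ := Subtype.ext e.symm
    rw [h2]
    exact h1
  have h := LinearMap.finrank_le_finrank_of_injective hΦ
  rw [Module.finrank_fintype_fun_eq_card, Module.finrank_fintype_fun_eq_card,
    Fintype.card_coe, Fintype.card_coe] at h
  exact h

end Pool.Agent.Helper47.SR
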